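import Mathlib

namespace Pool.Agent.Results.MP_735b88_an.NoRetraction

open Set Real Filter Topology

noncomputable def k (u v z : ℝ) : ℝ := 5 * (z - sin z) + (1 - cos u) * sin z + (1 - cos v) * sin z -
  (5 * (u - sin u) + (1 - cos u) * sin u)

noncomputable def f (p : Fin 3 → ℝ) : Fin 3 → ℝ := ![p 0, p 1, p 2 - k (p 0 / 9) (p 1 / 9) (p 2) / 14]

theorem est (u v z a b c m : ℝ) (ha : |a| ≤ m) (hb : |b| ≤ m) (hc : |c| ≤ m) :
    |c - ((5 * (1 - cos z) + (1 - cos u) * cos z + (1 - cos v) * cos z) * c +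
      (sin u * sin z - (5 * (1 - cos u) + (sin u * sin u + (1 - cos u) * cos u))) * (a / 9) +
      sin v * sin z * (b / 9)) / 14| ≤ m := by
  have s : ∀ x : ℝ, sin x ^ 2 ≤ 2 * (1 - cos x) := fun x => by
    nlinarith [sin_sq_add_cos_sq x, sq_nonneg (1 - cos x)]
  have t : ∀ x y : ℝ, |sin x * sin y| ≤ (1 - cos x) + (1 - cos y) := fun x y =>
    abs_le.2 ⟨by nlinarith [s x, s y, sq_nonneg (sin x + sin y)],
      by nlinarith [s x, s y, sq_nonneg (sin x - sin y)]⟩
  have u1 := cos_le_one u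
  have v1 := cos_le_one v
  have z1 := cos_le_one z
  have u2 := neg_one_le_cos u
  have v2 := neg_one_le_cos v
  have z2 := neg_one_le_cos z
  generalize hA : 5 * (1 - cos z) + (1 - cos u) * cos z + (1 - cos v) * cos z = A
  generalize hB : sin u * sin z - (5 * (1 - cos u) + (sin u * sin u + (1 - cos u) * cos u)) = B
  have a1 : (1 - cos u) + (1 - cos v) + (1 - cos z) ≤ A := by nlinarith
  have a2 : A ≤ 14 := by nlinarith
  have b1 : |B| ≤ 9 * (1 - cos u) + (1 - cos z) := by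
    have := abs_le.1 (t u z)
    rw [abs_le]; constructor <;> nlinarith [s u, sq_nonneg (sin u)]
  have c1 := t v z
  generalize sin v * sin z = C at *
  rw [show c - (A * c + B * (a / 9) + C * (b / 9)) / 14 =
    (1 - A / 14) * c + -(B / 126 * a) + -(C / 126 * b) by ring]
  refine (abs_add_three _ _ _).trans ?_
  rw [abs_neg, abs_neg, abs_mul, abs_mul, abs_mul, abs_of_nonneg (by linarith : 0 ≤ 1 - A / 14),
    abs_div, abs_div, abs_of_pos (by norm_num : (0 : ℝ) < 126)]
  have m0 := (abs_nonneg a).trans ha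
  nlinarith [mul_le_mul_of_nonneg_left hc (by linarith : 0 ≤ 1 - A / 14),
    mul_le_mul_of_nonneg_left ha (abs_nonneg B), mul_le_mul_of_nonneg_left hb (abs_nonneg C),
    mul_le_mul_of_nonneg_right (by linarith : |B| + |C| ≤ 9 * A) m0]

theorem nonexp (p q : Fin 3 → ℝ) : ‖f p - f q‖ ≤ ‖p - q‖ := by
  refine (pi_norm_le_iff_of_nonneg (norm_nonneg _)).2 fun i => ?_
  fin_cases i
  · exact norm_le_pi_norm (p - q) 0
  · exact norm_le_pi_norm (p - q) 1
  have l : ∀ a b t : ℝ, HasDerivAt (fun t => a + t * b) b t := fun a b t => by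
    simpa using ((hasDerivAt_id t).mul_const b).const_add a
  have := norm_image_sub_le_of_norm_deriv_le_segment_01' (C := ‖p - q‖)
    (f := fun t => f (q + t • (p - q)) 2) (fun t _ => by
      have u := (l (q 0) ((p - q) 0) t).div_const 9
      have v := (l (q 1) ((p - q) 1) t).div_const 9
      have z := l (q 2) ((p - q) 2) t
      exact (z.sub ((((((z.sub z.sin).const_mul 5).add ((u.cos.const_sub 1).mul z.sin)).add
        ((v.cos.const_sub 1).mul z.sin)).sub (((u.sub u.sin).const_mul 5).add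
        ((u.cos.const_sub 1).mul u.sin))).div_const 14)).hasDerivWithinAt) fun t _ => by
      refine le_trans (le_of_eq (congrArg abs ?_)) (est ((q 0 + t * (p - q) 0) / 9)
        ((q 1 + t * (p - q) 1) / 9) (q 2 + t * (p - q) 2) _ _ _ _ (norm_le_pi_norm (p - q) 0)
        (norm_le_pi_norm (p - q) 1) (norm_le_pi_norm (p - q) 2))
      ring
  simpa using this

theorem slope {g : ℝ → ℝ} {a : ℝ} (h : HasDerivAt g a 0) (h0 : g 0 = 0) :
    Tendsto (fun t => g t / t) (𝓝[≠] 0) (𝓝 a) := by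
  simpa [h0, div_eq_inv_mul] using h.tendsto_slope_zero

theorem cube {g : ℝ → ℝ} (h : HasDerivAt g 1 0) (h0 : g 0 = 0) :
    Tendsto (fun t => (g t - sin (g t)) / t ^ 3) (𝓝[≠] 0) (𝓝 (1 / 6)) := by
  have s := slope h h0
  have c : Tendsto g (𝓝[≠] 0) (𝓝 0) :=
    (h.continuousAt.tendsto.mono_left nhdsWithin_le_nhds).trans_eq (by rw [h0])
  have : Tendsto (fun t => (sin (g t) - (g t - g t ^ 3 / 6)) / t ^ 3) (𝓝[≠] 0) (𝓝 0) := by
    refine squeeze_zero_norm' ?_ (by simpa using ((s.abs.pow 3).mul (c.abs.pow 2)).div_const 100)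
    filter_upwards [c.abs.eventually (ge_mem_nhds (by simp : |(0 : ℝ)| < 1))] with t ht
    rw [norm_div, norm_pow]
    refine (div_le_div_of_nonneg_right (sin_bound ht) (by positivity)).trans_eq ?_
    simp only [abs_div, norm_eq_abs, ← sq_abs (g t)]
    ring
  refine (((s.pow 3).div_const 6).sub this).congr' ?_ |>.trans_eq (by norm_num)
  exact .of_forall fun t => by ring

theorem sq {g : ℝ → ℝ} (h : HasDerivAt g 1 0) (h0 : g 0 = 0) :
    Tendsto (fun t => (1 - cos (g t)) / t ^ 2) (𝓝[≠] 0) (𝓝 (1 / 2)) := by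
  have s := slope (h.div_const 2).sin (by simp [h0])
  refine ((s.pow 2).const_mul 2).congr' (.of_forall fun t => ?_) |>.trans_eq (by simp [h0]; norm_num)
  rw [div_pow, sin_sq_eq_half_sub, mul_div_cancel₀ _ two_ne_zero]
  ring

theorem result : ∃ f : (Fin 3 → ℝ) → Fin 3 → ℝ, (∀ p q, ‖f p - f q‖ ≤ ‖p - q‖) ∧
    AnalyticOnNhd ℝ f univ ∧ f 0 = 0 ∧ ¬ ∃ r : (Fin 3 → ℝ) → Fin 3 → ℝ,
      (∀ p, f (r p) = r p) ∧ (∀ p, f p = p → r p = p) ∧ DifferentiableAt ℝ r 0 := by
  have fx : ∀ p : Fin 3 → ℝ, k (p 0 / 9) (p 1 / 9) (p 2) = 0 → f p = p := fun p h => by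
    funext i; fin_cases i <;> simp [f, h]
  refine ⟨f, nonexp, fun p _ => analyticAt_pi_iff.2 fun i => ?_, fx 0 (by simp [k]),
    fun ⟨r, h1, h2, h3⟩ => ?_⟩
  · have c : ∀ i, AnalyticAt ℝ (fun x : Fin 3 → ℝ => x i) p := fun i =>
      (ContinuousLinearMap.proj (R := ℝ) (φ := fun _ : Fin 3 => ℝ) i).analyticAt p
    have s : ∀ {g : (Fin 3 → ℝ) → ℝ}, AnalyticAt ℝ g p → AnalyticAt ℝ (fun x => sin (g x)) p :=
      fun h => analyticAt_sin.comp h
    have o : ∀ {g : (Fin 3 → ℝ) → ℝ}, AnalyticAt ℝ g p → AnalyticAt ℝ (fun x => 1 - cos (g x)) p :=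
      fun h => analyticAt_const.sub (analyticAt_cos.comp h)
    have u := (c 0).div_const (c := 9)
    have v := (c 1).div_const (c := 9)
    fin_cases i
    exacts [c 0, c 1, (c 2).sub (((((analyticAt_const.mul ((c 2).sub (s (c 2)))).add
      ((o u).mul (s (c 2)))).add ((o v).mul (s (c 2)))).sub ((analyticAt_const.mul (u.sub (s u))).add
      ((o u).mul (s u)))).div_const (c := 14))]
  have r0 : r 0 = 0 := h2 0 (fx 0 (by simp [k]))
  have d : ∀ e : Fin 3 → ℝ, HasDerivAt (fun t : ℝ => r (t • e)) (fderiv ℝ r 0 e) 0 := fun e =>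
    (h3.hasFDerivAt.comp_hasDerivAt_of_eq 0 ((hasDerivAt_id (0 : ℝ)).smul_const e)
      (by simp)).congr_deriv (by rw [one_smul])
  have e : ∀ e : Fin 3 → ℝ, (∀ t : ℝ, f (t • e) = t • e) → fderiv ℝ r 0 e = e := fun e h =>
    (d e).unique (by simpa [h2 _ (h _)] using (hasDerivAt_id (0 : ℝ)).smul_const e)
  have D := d (![9, 0, 1] + ![0, 9, 0])
  rw [map_add, e _ fun t => fx _ (by simp [k]), e _ fun t => fx _ (by simp [k])] at D
  have D' := hasDerivAt_pi.1 D
  set w : Fin 3 → ℝ := ![9, 0, 1] + ![0, 9, 0]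
  have du : HasDerivAt (fun t : ℝ => r (t • w) 0 / 9) 1 0 :=
    ((D' 0).div_const 9).congr_deriv (by simp [w])
  have dv : HasDerivAt (fun t : ℝ => r (t • w) 1 / 9) 1 0 :=
    ((D' 1).div_const 9).congr_deriv (by simp [w])
  have dz : HasDerivAt (fun t : ℝ => r (t • w) 2) 1 0 := (D' 2).congr_deriv (by simp [w])
  have su := slope du.sin (by simp [r0])
  have sz := slope dz.sin (by simp [r0])
  have T := (((((cube dz (by simp [r0])).const_mul 5).add ((sq du (by simp [r0])).mul sz)).add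
    ((sq dv (by simp [r0])).mul sz)).sub (((cube du (by simp [r0])).const_mul 5).add
    ((sq du (by simp [r0])).mul su))).congr' (f₂ := fun _ => 0) (.of_forall fun t => by
      have : r (t • w) 2 - k _ _ _ / 14 = r (t • w) 2 := congrFun (h1 (t • w)) 2
      have z : k (r (t • w) 0 / 9) (r (t • w) 1 / 9) (r (t • w) 2) / t ^ 3 = 0 := by
        rw [div_eq_zero_iff]; left; linarith
      rw [← z, k]; ring)
  simpa [r0] using tendsto_nhds_unique T tendsto_const_nhds

end Pool.Agent.Results.MP_735b88_an.NoRetraction
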